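import Mathlib
import Pool.Agent.Lib.MP_7d7944_co.Semifield

set_option autoImplicit false

open Matrix Pool.Agent.Lib.MP_7d7944_co

namespace Pool.Agent.Results.MP_7d7944_co.NoMinusType

/-- the number of preimages of `β` under `F` -/
def fib {n m : ℕ} (F : (Fin n → ZMod 2) → (Fin m → ZMod 2)) (β : Fin m → ZMod 2) : ℕ :=
  (Finset.univ.filter (fun x => F x = β)).card

/-- `F` is bent (perfect nonlinear): every nonzero derivative takes each value `2^(n-m)` times -/
def IsBent {n m : ℕ} (F : (Fin n → ZMod 2) → (Fin m → ZMod 2)) : Prop :=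
  ∀ a : Fin n → ZMod 2, a ≠ 0 → ∀ β, fib (fun x => F (x + a) + F x) β = 2 ^ (n - m)

/-- almost balanced of type `(-)` -/
def TypeMinus {n m : ℕ} (F : (Fin n → ZMod 2) → (Fin m → ZMod 2)) : Prop :=
  ∃ α, (fib F α : ℤ) = 2 ^ (n - m) - 2 ^ (n / 2) + 2 ^ (n / 2 - m) ∧
    ∀ β, β ≠ α → (fib F β : ℤ) = 2 ^ (n - m) + 2 ^ (n / 2 - m)

/-- first half of a vector -/
def fstH (z : Fin (4 + 4) → ZMod 2) : Fin 4 → ZMod 2 := fun i => z (Fin.castAdd 4 i)

/-- second half of a vector -/
def sndH (z : Fin (4 + 4) → ZMod 2) : Fin 4 → ZMod 2 := fun i => z (Fin.natAdd 4 i)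

/-- the semifield multiplication -/
def mulF (z : Fin (4 + 4) → ZMod 2) : Fin 4 → ZMod 2 := A (sndH z) *ᵥ fstH z

lemma A_add (y y' : Fin 4 → ZMod 2) : A (y + y') = A y + A y' := by
  simp [A, add_smul, Finset.sum_add_distrib]

lemma A_zero : A 0 = 0 := by simp [A]

lemma fstH_add (x y : Fin (4 + 4) → ZMod 2) : fstH (x + y) = fstH x + fstH y := rfl
lemma sndH_add (x y : Fin (4 + 4) → ZMod 2) : sndH (x + y) = sndH x + sndH y := rfl
lemma fstH_append (x y : Fin 4 → ZMod 2) : fstH (Fin.append x y) = x := by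
  funext i; simp [fstH]
lemma sndH_append (x y : Fin 4 → ZMod 2) : sndH (Fin.append x y) = y := by
  funext i; simp only [sndH, Fin.append_right]

lemma surj_of_det (M : Matrix (Fin 4) (Fin 4) (ZMod 2)) (h : M.det = 1) :
    Function.Surjective M.mulVec := by
  rw [Matrix.mulVec_surjective_iff_isUnit, Matrix.isUnit_iff_isUnit_det, h]
  exact isUnit_one

lemma fib_of_surj (φ : (Fin (4 + 4) → ZMod 2) →+ (Fin 4 → ZMod 2)) (hφ : Function.Surjective φ)
    (β : Fin 4 → ZMod 2) : fib φ β = 16 := by
  have h1 : ∀ γ, fib φ γ = fib φ β := by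
    intro γ
    obtain ⟨c, hc⟩ := hφ (β - γ)
    unfold fib
    apply Finset.card_bij (fun x _ => x + c)
    · intro x hx
      simp only [Finset.mem_filter, Finset.mem_univ, true_and] at hx ⊢
      rw [map_add, hx, hc]; abel
    · intro x _ y _ h
      exact add_right_cancel h
    · intro y hy
      simp only [Finset.mem_filter, Finset.mem_univ, true_and] at hy
      refine ⟨y - c, ?_, by abel⟩
      simp only [Finset.mem_filter, Finset.mem_univ, true_and]
      rw [map_sub, hy, hc]; abel
  have h2 : (Finset.univ : Finset (Fin (4 + 4) → ZMod 2)).card = ∑ γ, fib φ γ :=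
    Finset.card_eq_sum_card_fiberwise (f := φ) (t := Finset.univ) (fun _ _ => Finset.mem_univ _)
  simp only [h1, Finset.sum_const, Finset.card_univ, Fintype.card_fun, ZMod.card,
    Fintype.card_fin, smul_eq_mul] at h2
  omega

lemma bent_mulF : IsBent mulF := by
  intro a ha β
  let φ : (Fin (4 + 4) → ZMod 2) →+ (Fin 4 → ZMod 2) :=
    { toFun := fun z => A (sndH z) *ᵥ fstH a + A (sndH a) *ᵥ fstH z
      map_zero' := by
        have h1 : sndH 0 = 0 := rfl
        have h2 : fstH 0 = 0 := rfl
        simp [h1, h2, A_zero]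
      map_add' := fun x y => by
        rw [fstH_add, sndH_add, A_add, add_mulVec, mulVec_add]; abel }
  have hφ : Function.Surjective φ := by
    by_cases h2 : sndH a = 0
    · have h1 : fstH a ≠ 0 := by
        intro h1
        apply ha
        funext i
        refine Fin.addCases (fun j => ?_) (fun j => ?_) i
        · exact congrFun h1 j
        · exact congrFun h2 j
      have hinj : Function.Injective (fun y : Fin 4 → ZMod 2 => A y *ᵥ fstH a) := by
        intro y y' h
        by_contra hne
        have h3 : y - y' ≠ 0 := sub_ne_zero.mpr hne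
        have h4 : A y = A (y - y') + A y' := by rw [← A_add, sub_add_cancel]
        have h5 : A (y - y') *ᵥ fstH a = A (y - y') *ᵥ 0 := by
          simp only [h4, add_mulVec] at h
          rw [mulVec_zero]
          simpa using h
        exact h1 ((Finite.injective_iff_surjective.mpr (surj_of_det _ (det_A _ h3))) h5)
      intro γ
      obtain ⟨y, hy⟩ := Finite.injective_iff_surjective.mp hinj γ
      refine ⟨Fin.append 0 y, ?_⟩
      show A (sndH _) *ᵥ fstH a + A (sndH a) *ᵥ fstH _ = γ
      rw [sndH_append, fstH_append, mulVec_zero, add_zero]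
      exact hy
    · intro γ
      obtain ⟨x, hx⟩ := surj_of_det _ (det_A _ h2) γ
      refine ⟨Fin.append x 0, ?_⟩
      show A (sndH _) *ᵥ fstH a + A (sndH a) *ᵥ fstH _ = γ
      rw [sndH_append, fstH_append, A_zero, zero_mulVec, zero_add]
      exact hx
  have h2 : ∀ v : Fin 4 → ZMod 2, v + v = 0 := fun v => by
    funext i; exact CharTwo.add_self_eq_zero _
  have h3 : ∀ x, mulF (x + a) + mulF x = φ x + mulF a := by
    intro x
    show A (sndH (x + a)) *ᵥ fstH (x + a) + A (sndH x) *ᵥ fstH x =
      (A (sndH x) *ᵥ fstH a + A (sndH a) *ᵥ fstH x) + A (sndH a) *ᵥ fstH a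
    rw [fstH_add, sndH_add, A_add, add_mulVec, mulVec_add, mulVec_add]
    have := h2 (A (sndH x) *ᵥ fstH x)
    linear_combination this
  have h4 := fib_of_surj φ hφ (β - mulF a)
  unfold fib at h4 ⊢
  rw [show 2 ^ (4 + 4 - 4) = 16 from rfl, ← h4]
  congr 1
  apply Finset.filter_congr
  intro x _
  simp only [h3, eq_sub_iff_add_eq]

lemma not_minus (L : (Fin (4 + 4) → ZMod 2) →ₗ[ZMod 2] (Fin 4 → ZMod 2)) :
    ¬ TypeMinus (fun x => mulF x + L x) := by
  rintro ⟨α, hα, -⟩
  have h1 : fib (fun x => mulF x + L x) α = 1 := by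
    have : (fib (fun x => mulF x + L x) α : ℤ) = 1 := by rw [hα]; norm_num
    exact_mod_cast this
  let e : (Fin 4 → ZMod 2) →ₗ[ZMod 2] (Fin (4 + 4) → ZMod 2) :=
    { toFun := fun x => Fin.append x 0
      map_add' := fun x y => by
        funext i
        refine Fin.addCases (fun j => ?_) (fun j => ?_) i <;>
          simp only [Fin.append_left, Fin.append_right, Pi.add_apply, Pi.smul_apply,
            Pi.zero_apply, add_zero, zero_add, smul_zero, RingHom.id_apply]
      map_smul' := fun c x => by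
        funext i
        refine Fin.addCases (fun j => ?_) (fun j => ?_) i <;>
          simp only [Fin.append_left, Fin.append_right, Pi.add_apply, Pi.smul_apply,
            Pi.zero_apply, add_zero, zero_add, smul_zero, RingHom.id_apply] }
  let M : Matrix (Fin 4) (Fin 4) (ZMod 2) := LinearMap.toMatrix' (L.comp e)
  have hM : ∀ x, M *ᵥ x = L (Fin.append x 0) := fun x => by
    simp only [M, LinearMap.toMatrix'_mulVec]; rfl
  have key : ∀ y, (A y + M).det = 1 → ∃ z, sndH z = y ∧ mulF z + L z = α := by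
    intro y hy
    obtain ⟨x, hx⟩ := surj_of_det _ hy (α - L (Fin.append 0 y))
    refine ⟨Fin.append x y, sndH_append _ _, ?_⟩
    have h2 : Fin.append x y = Fin.append x 0 + Fin.append (0 : Fin 4 → ZMod 2) y := by
      funext i
      refine Fin.addCases (fun j => ?_) (fun j => ?_) i <;>
          simp only [Fin.append_left, Fin.append_right, Pi.add_apply, Pi.smul_apply,
            Pi.zero_apply, add_zero, zero_add, smul_zero, RingHom.id_apply]
    have h3 : L (Fin.append x y) = M *ᵥ x + L (Fin.append 0 y) := by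
      rw [hM, ← map_add, ← h2]
    rw [h3, mulF, sndH_append, fstH_append, ← add_assoc, ← add_mulVec, hx, sub_add_cancel]
  obtain ⟨y, y', hne, hy, hy'⟩ := two_invertible M
  obtain ⟨z, hz, hz2⟩ := key y hy
  obtain ⟨z', hz', hz2'⟩ := key y' hy'
  unfold fib at h1
  have h2 := Finset.card_le_one.mp h1.le z (by simp [hz2]) z' (by simp [hz2'])
  exact hne (by rw [← hz, ← hz', h2])

/-- There is a bent function `F : 𝔽₂^8 → 𝔽₂^4` such that `F + L` is not almost balanced of type
`(-)` for any linear map `L`. -/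
theorem result :
    ∃ F : (Fin 8 → ZMod 2) → (Fin 4 → ZMod 2), IsBent F ∧
      ∀ L : (Fin 8 → ZMod 2) →ₗ[ZMod 2] (Fin 4 → ZMod 2), ¬ TypeMinus (fun x => F x + L x) :=
  ⟨mulF, bent_mulF, not_minus⟩

end Pool.Agent.Results.MP_7d7944_co.NoMinusType
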