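import Mathlib
import Pool.Agent.Lib.MP_7d7944_co.Three

set_option autoImplicit false

open Finset Matrix Pool.Agent.Lib.MP_7d7944_co.Three

namespace Pool.Agent.Results.MP_7d7944_co.ThreeComponents

/-- the number of preimages of `β` under `F` -/
def fib {n m : ℕ} (F : (Fin n → ZMod 2) → (Fin m → ZMod 2)) (β : Fin m → ZMod 2) : ℕ :=
  (Finset.univ.filter (fun x => F x = β)).card

/-- `F` is bent (perfect nonlinear): every nonzero derivative takes each value `2^(n-m)` times -/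
def IsBent {n m : ℕ} (F : (Fin n → ZMod 2) → (Fin m → ZMod 2)) : Prop :=
  ∀ a : Fin n → ZMod 2, a ≠ 0 → ∀ β, fib (fun x => F (x + a) + F x) β = 2 ^ (n - m)

/-- almost balanced of type `(+)` -/
def TypePlus {n m : ℕ} (F : (Fin n → ZMod 2) → (Fin m → ZMod 2)) : Prop :=
  ∃ α, (fib F α : ℤ) = 2 ^ (n - m) + 2 ^ (n / 2) - 2 ^ (n / 2 - m) ∧
    ∀ β, β ≠ α → (fib F β : ℤ) = 2 ^ (n - m) - 2 ^ (n / 2 - m)

/-- almost balanced of type `(-)` -/
def TypeMinus {n m : ℕ} (F : (Fin n → ZMod 2) → (Fin m → ZMod 2)) : Prop :=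
  ∃ α, (fib F α : ℤ) = 2 ^ (n - m) - 2 ^ (n / 2) + 2 ^ (n / 2 - m) ∧
    ∀ β, β ≠ α → (fib F β : ℤ) = 2 ^ (n - m) + 2 ^ (n / 2 - m)

variable {n : ℕ}

lemma sum_fib (G : V n → V 3) (φ : V 3 → ℝ) : ∑ x, φ (G x) = ∑ β, (fib G β : ℝ) * φ β := by
  rw [← Finset.sum_fiberwise (s := univ) (g := G)]
  refine Finset.sum_congr rfl fun β _ => ?_
  rw [Finset.sum_congr rfl (g := fun _ => φ β) (fun x hx => by rw [(Finset.mem_filter.mp hx).2])]
  simp [fib]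

lemma bal {F : V n → V 3} (h : IsBent F) {b : V 3} (hb : b ≠ 0) :
    Bal fun x => ch (b ⬝ᵥ F x) := by
  refine ⟨fun x => ch_mul_self _, fun l hl => ?_⟩
  have h1 : ∀ x, ch (b ⬝ᵥ F (x + l)) * ch (b ⬝ᵥ F x) = ch (b ⬝ᵥ (F (x + l) + F x)) := by
    intro x; rw [dotProduct_add, ch_add]
  simp only [h1]
  rw [sum_fib (fun x => F (x + l) + F x) (fun β => ch (b ⬝ᵥ β))]
  simp only [h l hl]
  rw [← Finset.mul_sum, sum_ch, if_neg hb, mul_zero]

lemma fib_eq (G : V n → V 3) (β : V 3) :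
    8 * (fib G β : ℝ) = ∑ b : V 3, ch (b ⬝ᵥ β) * ∑ x, ch (b ⬝ᵥ G x) := by
  simp only [Finset.mul_sum, ← ch_add, ← dotProduct_add]
  rw [Finset.sum_comm]
  simp only [dotProduct_comm _ (β + _), sum_ch, add_eq_zero_iff]
  rw [← Finset.sum_filter]
  simp [fib]; ring

lemma fib_val (G : V n → V 3) (c : ℝ) (α : V 3)
    (h : ∀ b : V 3, b ≠ 0 → ∑ x, ch (b ⬝ᵥ G x) = c * ch (b ⬝ᵥ α)) (β : V 3) :
    8 * (fib G β : ℝ) = 2 ^ n - c + if β = α then 8 * c else 0 := by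
  rw [fib_eq]
  have h1 : ∀ b : V 3, ch (b ⬝ᵥ β) * ∑ x, ch (b ⬝ᵥ G x)
      = (if b = 0 then 2 ^ n - c else 0) + c * ch ((α + β) ⬝ᵥ b) := by
    intro b
    by_cases hb : b = 0
    · simp [hb, ch_zero]
    · rw [h b hb, if_neg hb, add_dotProduct, ch_add, dotProduct_comm α, dotProduct_comm β]; ring
  simp only [h1]
  rw [Finset.sum_add_distrib, ← Finset.mul_sum, sum_ch]
  simp only [add_eq_zero_iff, Finset.sum_ite_eq', Finset.mem_univ, if_true]
  split_ifs <;> ring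

lemma exists_ch {t : ℝ} (h : t * t = 1) : ∃ s : ZMod 2, ch s = t := by
  rcases sq_one h with rfl | rfl
  exacts [⟨0, ch_zero⟩, ⟨1, ch_one⟩]

lemma pattern {ε a b c d e f g : ℝ} (hε : ε * ε = 1) (ha : a * a = 1) (hb : b * b = 1)
    (hd : d * d = 1) (h1 : a * b * c = ε) (h2 : a * d * e = ε) (h3 : b * d * f = ε)
    (h4 : c * d * g = ε) :
    c = ε * ((ε * a) * (ε * b)) ∧ e = ε * ((ε * a) * (ε * d)) ∧ f = ε * ((ε * b) * (ε * d)) ∧
      g = ε * ((ε * a) * (ε * b) * (ε * d)) := by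
  have hc : c = ε * (a * b) := by
    rcases sq_one ha with rfl | rfl <;> rcases sq_one hb with rfl | rfl <;> linarith
  subst hc
  rcases sq_one hε with rfl | rfl <;> rcases sq_one ha with rfl | rfl <;>
    rcases sq_one hb with rfl | rfl <;> rcases sq_one hd with rfl | rfl <;>
    refine ⟨?_, ?_, ?_, ?_⟩ <;> linarith

lemma signs (k : ℕ) (hk : 4 ≤ k) (F : V (2 * k) → V 3) (h : IsBent F) (ε : ℝ) (hε : ε * ε = 1) :
    ∃ (L : V (2 * k) →ₗ[ZMod 2] V 3) (α : V 3), ∀ b : V 3, b ≠ 0 →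
      ∑ x, ch (b ⬝ᵥ (F x + L x)) = ε * 2 ^ k * ch (b ⬝ᵥ α) := by
  have hR : (2 : ℝ) ^ k * 2 ^ k = 2 ^ (2 * k) := by rw [← pow_add, two_mul]
  have h16 : (16 : ℝ) ≤ 2 ^ k := by
    calc (16 : ℝ) = 2 ^ 4 := by norm_num
      _ ≤ 2 ^ k := pow_le_pow_right₀ (by norm_num) hk
  set f : V 3 → V (2 * k) → ℝ := fun b x => ch (b ⬝ᵥ F x) with hf
  have hm : ∀ b b' c : V 3, c = b + b' → ∀ x, f c x = f b x * f b' x := by
    rintro b b' _ rfl x
    simp only [hf]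
    rw [add_dotProduct, ch_add]
  have hb : ∀ b : V 3, b ≠ 0 → Bal (f b) := fun b hb => bal h hb
  obtain ⟨x, y, z, h1, h2, h3, h4⟩ := exists_rows (by omega) hR h16 hε
    (f ![1, 0, 0]) (f ![0, 1, 0]) (f ![1, 1, 0]) (f ![0, 0, 1]) (f ![1, 0, 1]) (f ![0, 1, 1])
    (f ![1, 1, 1]) (hb _ (by decide)) (hb _ (by decide)) (hb _ (by decide)) (hb _ (by decide))
    (hb _ (by decide)) (hb _ (by decide)) (hb _ (by decide)) (hm _ _ _ (by decide))
    (hm _ _ _ (by decide)) (hm _ _ _ (by decide)) (hm _ _ _ (by decide))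
  have a1 := S_sq hR (hb ![1, 0, 0] (by decide)) x
  have a2 := S_sq hR (hb ![0, 1, 0] (by decide)) y
  have a3 := S_sq hR (hb ![0, 0, 1] (by decide)) z
  obtain ⟨s1, e1⟩ := exists_ch (t := ε * S (2 ^ k) (f ![1, 0, 0]) x)
    (by linear_combination (ε * ε) * a1 + hε)
  obtain ⟨s2, e2⟩ := exists_ch (t := ε * S (2 ^ k) (f ![0, 1, 0]) y)
    (by linear_combination (ε * ε) * a2 + hε)
  obtain ⟨s3, e3⟩ := exists_ch (t := ε * S (2 ^ k) (f ![0, 0, 1]) z)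
    (by linear_combination (ε * ε) * a3 + hε)
  refine ⟨(Matrix.of ![x, y, z]).mulVecLin, ![s1, s2, s3], fun b hb0 => ?_⟩
  have hW : ∑ w, ch (b ⬝ᵥ (F w + (Matrix.of ![x, y, z]).mulVecLin w))
      = 2 ^ k * S (2 ^ k) (f b) (b 0 • x + b 1 • y + b 2 • z) := by
    have hv : b ᵥ* Matrix.of ![x, y, z] = b 0 • x + b 1 • y + b 2 • z := by
      funext j
      simp [Matrix.vecMul, dotProduct, Fin.sum_univ_three]
    rw [S, mul_div_cancel₀ _ (by positivity), W]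
    refine Finset.sum_congr rfl fun w _ => ?_
    rw [dotProduct_add, ch_add, Matrix.mulVecLin_apply, Matrix.dotProduct_mulVec, hv]
  have hd : b ⬝ᵥ ![s1, s2, s3] = b 0 * s1 + b 1 * s2 + b 2 * s3 := by
    simp [dotProduct, Fin.sum_univ_three]
  rw [hW, hd]
  have hc : ∀ b : V 3, b ≠ 0 → b = ![1, 0, 0] ∨ b = ![0, 1, 0] ∨ b = ![0, 0, 1] ∨ b = ![1, 1, 0] ∨
      b = ![1, 0, 1] ∨ b = ![0, 1, 1] ∨ b = ![1, 1, 1] := by decide
  obtain ⟨c1, c2, c3, c4⟩ := pattern hε a1 a2 a3 h1 h2 h3 h4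
  rcases hc b hb0 with rfl | rfl | rfl | rfl | rfl | rfl | rfl <;>
    simp only [Matrix.cons_val_zero, Matrix.cons_val_one, Matrix.cons_val_two, Matrix.head_cons,
      Matrix.tail_cons, one_smul, zero_smul, add_zero, zero_add, one_mul, zero_mul, ch_add,
      e1, e2, e3]
  · linear_combination (-(2 ^ k * S (2 ^ k) (f ![1, 0, 0]) x)) * hε
  · linear_combination (-(2 ^ k * S (2 ^ k) (f ![0, 1, 0]) y)) * hε
  · linear_combination (-(2 ^ k * S (2 ^ k) (f ![0, 0, 1]) z)) * hε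
  · rw [c1]; ring
  · rw [c2]; ring
  · rw [c3]; ring
  · rw [c4]; ring

/-- Every bent function `F : 𝔽₂^n → 𝔽₂^3` with `n ≥ 8` even reaches both extremal value
distributions by adding linear maps. -/
theorem result (n : ℕ) (hn : Even n) (h8 : 8 ≤ n)
    (F : (Fin n → ZMod 2) → (Fin 3 → ZMod 2)) (hF : IsBent F) :
    ∃ Lp Lm : (Fin n → ZMod 2) →ₗ[ZMod 2] (Fin 3 → ZMod 2),
      TypePlus (fun x => F x + Lp x) ∧ TypeMinus (fun x => F x + Lm x) := by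
  obtain ⟨k, hk⟩ := hn
  obtain rfl : n = 2 * k := by omega
  have hk4 : 4 ≤ k := by omega
  obtain ⟨Lp, αp, hp⟩ := signs k hk4 F hF 1 (by norm_num)
  obtain ⟨Lm, αm, hm⟩ := signs k hk4 F hF (-1) (by norm_num)
  have e1 : (2 : ℝ) ^ (2 * k) = 8 * 2 ^ (2 * k - 3) := by
    rw [show 2 * k = 3 + (2 * k - 3) by omega, pow_add]; simp; norm_num
  have e2 : (2 : ℝ) ^ k = 8 * 2 ^ (k - 3) := by
    rw [show k = 3 + (k - 3) by omega, pow_add]; simp; norm_num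
  have e3 : 2 * k / 2 = k := by omega
  refine ⟨Lp, Lm, ⟨αp, ?_, fun β hβ => ?_⟩, ⟨αm, ?_, fun β hβ => ?_⟩⟩
  · have := fib_val (fun x => F x + Lp x) _ αp hp αp
    rw [if_pos rfl] at this
    rw [e3]
    have h : (fib (fun x => F x + Lp x) αp : ℝ) = 2 ^ (2 * k - 3) + 2 ^ k - 2 ^ (k - 3) := by
      linarith
    exact_mod_cast h
  · have := fib_val (fun x => F x + Lp x) _ αp hp β
    rw [if_neg hβ] at this
    rw [e3]
    have h : (fib (fun x => F x + Lp x) β : ℝ) = 2 ^ (2 * k - 3) - 2 ^ (k - 3) := by linarith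
    exact_mod_cast h
  · have := fib_val (fun x => F x + Lm x) _ αm hm αm
    rw [if_pos rfl] at this
    rw [e3]
    have h : (fib (fun x => F x + Lm x) αm : ℝ) = 2 ^ (2 * k - 3) - 2 ^ k + 2 ^ (k - 3) := by
      linarith
    exact_mod_cast h
  · have := fib_val (fun x => F x + Lm x) _ αm hm β
    rw [if_neg hβ] at this
    rw [e3]
    have h : (fib (fun x => F x + Lm x) β : ℝ) = 2 ^ (2 * k - 3) + 2 ^ (k - 3) := by linarith
    exact_mod_cast h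

end Pool.Agent.Results.MP_7d7944_co.ThreeComponents
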